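import Pool.Agent.Lib.MP_5e4462_co.Count

namespace Pool.Agent.Results.MP_5e4462_co.MixedMader

open Pool.Agent.Lib.MP_5e4462_co

/-- The bound for all `l`: `max 2 l` arcs per vertex for `k = 1`, `max (2k) (l+1)` for `k ≥ 2`. -/
theorem all_l (n k l : ℕ) (hk : 1 ≤ k) (A : Finset (Fin n × Fin n)) (hloop : ∀ v, (v, v) ∉ A)
    (hA : Good k l A) (hmin : ∀ e ∈ A, ¬ Good k l (A.erase e)) :
    A.card ≤ (if k = 1 then max 2 l else max (2 * k) (l + 1)) * n := by
  have h := main hk A hloop hA hmin
  rwa [Fintype.card_fin] at h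

/-- A loopless digraph on `n` vertices that is arc-minimal for the property of staying strongly
connected after deleting fewer than `k` vertices and having an underlying graph that stays
connected after deleting fewer than `l` vertices has at most `2 k n` arcs, for `k ≥ 1` and
`l ≤ max 2 (2k - 1)`. The case `k = 1`, `l = 2` is that of strongly biconnected digraphs. -/
theorem result : ∀ (n k l : ℕ), 1 ≤ k → l ≤ max 2 (2 * k - 1) →
    ∀ A : Finset (Fin n × Fin n), (∀ v, (v, v) ∉ A) → Good k l A →
      (∀ e ∈ A, ¬ Good k l (A.erase e)) → A.card ≤ 2 * k * n := fun n k l hk hl A h1 h2 h3 => by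
  refine (all_l n k l hk A h1 h2 h3).trans (Nat.mul_le_mul_right n ?_)
  split_ifs <;> omega

end Pool.Agent.Results.MP_5e4462_co.MixedMader
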